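import Pool.Agent.P.MP_d565f2_an.FR.Four

/-! The number of lattice points on a sphere in dimension at least eight. -/

set_option autoImplicit false

open Finset

namespace Pool.Agent.P.MP_d565f2_an.FR

theorem dot_append {e f : ℕ} (y : Fin e → ℤ) (q : Fin f → ℤ) :
    Fin.append y q ⬝ᵥ Fin.append y q = y ⬝ᵥ y + q ⬝ᵥ q := by
  simp [dotProduct, Fin.sum_univ_add]

theorem exists_rep (f r : ℕ) : ∃ y : Fin (f + 4) → ℤ, y ⬝ᵥ y = r := by
  obtain ⟨a, b, c, d, h⟩ := Nat.sum_four_squares r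
  refine ⟨Fin.append 0 ![a, b, c, d], ?_⟩
  rw [dot_append, dot4]
  simp only [Matrix.cons_val_zero, Matrix.cons_val_one, Matrix.cons_val, dotProduct_zero, zero_add]
  exact_mod_cast h

theorem card_conv {e n L : ℕ} (Y : Finset (Fin e → ℤ))
    (h : ∀ y ∈ Y, ∃ r : ℕ, y ⬝ᵥ y + r = n ∧ L ≤ (sph (Fin 4) r).card) :
    Y.card * L ≤ (sph (Fin (e + 4)) n).card := by
  classical
  choose! r hr hL using h
  calc Y.card * L ≤ ∑ y ∈ Y, (sph (Fin 4) (r y)).card := by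
        simpa using card_nsmul_le_sum Y _ L hL
    _ = (Y.sigma fun y => sph (Fin 4) (r y)).card := (card_sigma _ _).symm
    _ ≤ _ := by
      refine card_le_card_of_injOn (fun z => Fin.append z.1 z.2) ?_ ?_
      · intro z hz
        rw [mem_coe, mem_sigma, mem_sph] at hz
        rw [mem_coe, mem_sph, dot_append, hz.2, hr _ hz.1]
      · rintro ⟨y, q⟩ _ ⟨y', q'⟩ _ hz
        have h1 : y = y' := funext fun i => by simpa using congrFun hz (Fin.castAdd 4 i)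
        have h2 : q = q' := funext fun i => by simpa using congrFun hz (Fin.natAdd e i)
        subst h1 h2
        rfl

theorem count_large (f n U : ℕ) (hn : 2 * (f + 4) * 72 ^ 2 * U ^ 2 ≤ n) :
    U ^ (f + 4) * (n / 96) ≤ (sph (Fin (f + 4 + 4)) n).card := by
  classical
  obtain ⟨y₀, hy₀⟩ := exists_rep f ((n + 60) % 72)
  have hb : ∀ i, |y₀ i| ≤ 72 := by
    intro i
    have h1 := sq_le_dot y₀ i
    have h2 : (((n + 60) % 72 : ℕ) : ℤ) < 72 := by omega
    rw [abs_le]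
    constructor <;> nlinarith
  let g : (Fin (f + 4) → Fin U) → Fin (f + 4) → ℤ := fun u i => y₀ i + 72 * ((u i : ℕ) : ℤ)
  have hg : Function.Injective g := by
    intro u v huv
    funext i
    have := congrFun huv i
    simp only [g] at this
    exact Fin.ext (by omega)
  have hc : (univ.image g).card = U ^ (f + 4) := by
    rw [card_image_of_injective _ hg]
    simp
  rw [← hc]
  refine card_conv _ fun y hy => ?_
  obtain ⟨u, -, rfl⟩ := mem_image.1 hy
  have h1 : g u ⬝ᵥ g u ≤ (f + 4 : ℕ) * (72 * (U : ℤ)) ^ 2 := by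
    have : ∀ i ∈ (univ : Finset (Fin (f + 4))), g u i * g u i ≤ (72 * (U : ℤ)) ^ 2 := by
      intro i _
      have h2 := abs_le.1 (hb i)
      have h3 := (u i).2
      rw [← sq]
      refine sq_le_sq' ?_ ?_ <;> simp only [g] <;> omega
    simpa [dotProduct] using sum_le_card_nsmul _ _ _ this
  have h2 : (72 : ℤ) ∣ g u ⬝ᵥ g u - y₀ ⬝ᵥ y₀ := by
    simp only [dotProduct, ← sum_sub_distrib]
    exact dvd_sum fun i _ => ⟨2 * y₀ i * (u i : ℕ) + 72 * ((u i : ℕ) : ℤ) ^ 2, by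
      simp only [g]; ring⟩
  have h3 := dot_self_nonneg (g u)
  have h4 : 2 * (g u ⬝ᵥ g u) ≤ n := by
    have : ((2 * (f + 4) * 72 ^ 2 * U ^ 2 : ℕ) : ℤ) ≤ n := by exact_mod_cast hn
    push_cast at this h1
    nlinarith
  rw [hy₀] at h2
  obtain ⟨s, hs⟩ := Int.eq_ofNat_of_zero_le h3
  rw [hs] at h2 h4 ⊢
  obtain ⟨m, hm, hm1⟩ : ∃ m, s + 12 * m = n ∧ m % 6 = 1 := ⟨(n - s) / 12, by omega, by omega⟩
  refine ⟨12 * m, by exact_mod_cast hm, ?_⟩
  have := four_lower hm1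
  omega

/-- The lower bound for the number of lattice points on the sphere. -/
theorem count_lower (d : ℕ) (hd : 8 ≤ d) : ∃ C : ℕ, ∀ n : ℕ, (sph (Fin d) n).card ≠ 0 →
    n ^ (d - 2) ≤ C * (sph (Fin d) n).card ^ 2 := by
  obtain ⟨f, rfl⟩ : ∃ f, d = f + 4 + 4 := ⟨d - 8, by omega⟩
  set A := 2 * (f + 4) * 72 ^ 2 with hA
  have hA0 : 96 ≤ A := by omega
  refine ⟨A ^ (f + 6) + (4 * A) ^ (f + 4) * 192 ^ 2, fun n hN => ?_⟩
  rw [show f + 4 + 4 - 2 = f + 6 by omega]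
  set N := (sph (Fin (f + 4 + 4)) n).card with hNdef
  have hN1 : 1 ≤ N ^ 2 := Nat.one_le_pow _ _ (Nat.pos_of_ne_zero hN)
  rcases lt_or_ge n A with h | h
  · calc n ^ (f + 6) ≤ A ^ (f + 6) * 1 := by rw [mul_one]; exact Nat.pow_le_pow_left h.le _
      _ ≤ _ := Nat.mul_le_mul (Nat.le_add_right _ _) hN1
  · set U := Nat.sqrt (n / A) with hU
    have h1 : 1 ≤ n / A := (Nat.one_le_div_iff (by omega)).2 h
    have h2 : 1 ≤ U := Nat.sqrt_pos.2 h1
    have h3 : A * U ^ 2 ≤ n := (Nat.mul_le_mul_left A (Nat.sqrt_le' _)).trans (Nat.mul_div_le n A)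
    have h4 : n ≤ 4 * A * U ^ 2 := by
      have h5 : n / A + 1 ≤ (U + 1) ^ 2 := Nat.lt_succ_sqrt' _
      have h6 : n < A * (n / A + 1) := Nat.lt_mul_div_succ n (by omega)
      have h7 : (U + 1) ^ 2 ≤ 4 * U ^ 2 := by nlinarith
      calc n ≤ A * (n / A + 1) := h6.le
        _ ≤ A * (4 * U ^ 2) := Nat.mul_le_mul_left A (h5.trans h7)
        _ = _ := by ring
    have h5 := count_large f n U h3
    have h6 : n ≤ 192 * (n / 96) := by omega
    calc n ^ (f + 6) = n ^ (f + 4) * n ^ 2 := by ring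
      _ ≤ (4 * A * U ^ 2) ^ (f + 4) * (192 * (n / 96)) ^ 2 := by gcongr
      _ = (4 * A) ^ (f + 4) * 192 ^ 2 * (U ^ (f + 4) * (n / 96)) ^ 2 := by
        rw [mul_pow (4 * A), mul_pow 192, mul_pow (U ^ (f + 4)), ← pow_mul, ← pow_mul,
          mul_comm 2 (f + 4)]
        ring
      _ ≤ (4 * A) ^ (f + 4) * 192 ^ 2 * N ^ 2 := by gcongr
      _ ≤ _ := Nat.mul_le_mul_right _ (Nat.le_add_left _ _)

end Pool.Agent.P.MP_d565f2_an.FR
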