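import Pool.Agent.P.MP_d565f2_an.Analytic

/-! A linear lower bound for the number of representations of `12 m` as a sum of four squares. -/

set_option autoImplicit false

open Finset

namespace Pool.Agent.P.MP_d565f2_an.FR

theorem dot4 (q : Fin 4 → ℤ) : q ⬝ᵥ q = q 0 ^ 2 + q 1 ^ 2 + q 2 ^ 2 + q 3 ^ 2 := by
  simp [dotProduct, Fin.sum_univ_four, sq]

/-- Multiplying by a quaternion of norm `k`. -/
theorem card_sph_mul (n k : ℕ) (hk : k ≠ 0) :
    (sph (Fin 4) n).card ≤ (sph (Fin 4) (n * k)).card := by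
  obtain ⟨a, b, c, d, h⟩ := Nat.sum_four_squares k
  have h' : (a : ℤ) ^ 2 + b ^ 2 + c ^ 2 + d ^ 2 = k := by exact_mod_cast h
  have hk' : (k : ℤ) ≠ 0 := by exact_mod_cast hk
  refine card_le_card_of_injOn (fun q => ![q 0 * a - q 1 * b - q 2 * c - q 3 * d,
    q 0 * b + q 1 * a + q 2 * d - q 3 * c, q 0 * c - q 1 * d + q 2 * a + q 3 * b,
    q 0 * d + q 1 * c - q 2 * b + q 3 * a]) ?_ ?_
  · intro q hq
    rw [mem_coe, mem_sph, dot4] at hq ⊢
    simp only [Matrix.cons_val_zero, Matrix.cons_val_one, Matrix.cons_val]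
    push_cast
    rw [← hq, ← h']
    ring
  · intro q _ p _ hqp
    have e0 := congrFun hqp 0
    have e1 := congrFun hqp 1
    have e2 := congrFun hqp 2
    have e3 := congrFun hqp 3
    simp only [Matrix.cons_val_zero, Matrix.cons_val_one, Matrix.cons_val] at e0 e1 e2 e3
    funext i
    refine mul_left_cancel₀ hk' ?_
    rw [← h']
    fin_cases i
    · show _ * q 0 = _ * p 0
      linear_combination (a : ℤ) * e0 + b * e1 + c * e2 + d * e3
    · show _ * q 1 = _ * p 1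
      linear_combination -(b : ℤ) * e0 + a * e1 - d * e2 + c * e3
    · show _ * q 2 = _ * p 2
      linear_combination -(c : ℤ) * e0 + d * e1 + a * e2 - b * e3
    · show _ * q 3 = _ * p 3
      linear_combination -(d : ℤ) * e0 - c * e1 + b * e2 + a * e3

theorem exists_neg_one {m : ℕ} (hm : m % 2 = 1) : ∃ a b : ℤ, (m : ℤ) ∣ 1 + a ^ 2 + b ^ 2 := by
  obtain ⟨r, rfl⟩ : ∃ r, m = 2 * r + 1 := ⟨m / 2, by omega⟩
  have hc : (4 * r + 1).Coprime (4 * (2 * r + 1)) := by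
    rw [← Nat.isCoprime_iff_coprime]
    push_cast
    exact IsCoprime.mul_right (y := (4 : ℤ)) ⟨1, -(r : ℤ), by ring⟩ ⟨-1, 2, by ring⟩
  obtain ⟨p, -, hp, hmod⟩ := Nat.forall_exists_prime_gt_and_modEq 0 (by omega) hc
  have := Fact.mk hp
  have h4 : p % 4 = 1 := by
    have := hmod.of_mul_right (2 * r + 1)
    unfold Nat.ModEq at this
    omega
  obtain ⟨a, b, hab⟩ := Nat.Prime.sq_add_sq (p := p) (by omega)
  obtain ⟨c, hc'⟩ := (Nat.modEq_iff_dvd.1 (hmod.of_mul_left 4))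
  refine ⟨a, b, 2 - c, ?_⟩
  have : (a : ℤ) ^ 2 + b ^ 2 = p := by exact_mod_cast hab
  push_cast at hc' ⊢
  linear_combination this - hc'

/-- The coordinates of the product of `q` with `1 + t i - (a + b t) j + (b - a t) k`. -/
def c0 (a b t : ℤ) (q : Fin 4 → ℤ) : ℤ := q 0 - q 1 * t + q 2 * (a + b * t) - q 3 * (b - a * t)

/-- The second coordinate. -/
def c1 (a b t : ℤ) (q : Fin 4 → ℤ) : ℤ := q 0 * t + q 1 + q 2 * (b - a * t) + q 3 * (a + b * t)

/-- The third coordinate. -/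
def c2 (a b t : ℤ) (q : Fin 4 → ℤ) : ℤ := -(q 0 * (a + b * t)) - q 1 * (b - a * t) + q 2 + q 3 * t

/-- The fourth coordinate. -/
def c3 (a b t : ℤ) (q : Fin 4 → ℤ) : ℤ := q 0 * (b - a * t) - q 1 * (a + b * t) - q 2 * t + q 3

theorem dvd_c23 {m a b t : ℤ} {q : Fin 4 → ℤ} (h : m ∣ 1 + a ^ 2 + b ^ 2) (h0 : m ∣ c0 a b t q)
    (h1 : m ∣ c1 a b t q) : m ∣ c2 a b t q ∧ m ∣ c3 a b t q := by
  constructor
  · have : c2 a b t q = (1 + a ^ 2 + b ^ 2) * (q 2 + q 3 * t) - a * c0 a b t q - b * c1 a b t q := by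
      simp only [c0, c1, c2]; ring
    rw [this]
    exact ((h.mul_right _).sub (h0.mul_left _)).sub (h1.mul_left _)
  · have : c3 a b t q = (1 + a ^ 2 + b ^ 2) * (q 3 - q 2 * t) + b * c0 a b t q - a * c1 a b t q := by
      simp only [c0, c1, c3]; ring
    rw [this]
    exact ((h.mul_right _).add (h0.mul_left _)).sub (h1.mul_left _)

theorem dvd_norm {m a b t : ℤ} {q : Fin 4 → ℤ} (h : m ∣ 1 + a ^ 2 + b ^ 2) (h0 : m ∣ c0 a b t q)
    (h1 : m ∣ c1 a b t q) : m ∣ q ⬝ᵥ q := by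
  obtain ⟨h2, h3⟩ := dvd_c23 h h0 h1
  have : q ⬝ᵥ q = q 0 * c0 a b t q + q 1 * c1 a b t q + q 2 * c2 a b t q + q 3 * c3 a b t q := by
    simp only [dot4, c0, c1, c2, c3]; ring
  rw [this]
  exact (((h0.mul_left _).add (h1.mul_left _)).add (h2.mul_left _)).add (h3.mul_left _)

theorem dvd_diff {m a b t s j : ℤ} {q : Fin 4 → ℤ} (hm : m ≠ 0) (h : m ∣ 1 + a ^ 2 + b ^ 2)
    (h0 : m ∣ c0 a b t q) (h1 : m ∣ c1 a b t q) (g0 : m ∣ c0 a b s q) (g1 : m ∣ c1 a b s q)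
    (hq : q ⬝ᵥ q = j * m) : m ∣ 2 * j * (s - t) := by
  obtain ⟨h2, h3⟩ := dvd_c23 h h0 h1
  obtain ⟨g2, g3⟩ := dvd_c23 h g0 g1
  have key : c0 a b t q * c1 a b s q - c1 a b t q * c0 a b s q - c2 a b t q * c3 a b s q +
      c3 a b t q * c2 a b s q = q ⬝ᵥ q * ((s - t) * (1 - a ^ 2 - b ^ 2)) := by
    simp only [dot4, c0, c1, c2, c3]; ring
  have h4 : m * m ∣ m * (j * ((s - t) * (1 - a ^ 2 - b ^ 2))) := by
    rw [show m * (j * ((s - t) * (1 - a ^ 2 - b ^ 2))) =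
      j * m * ((s - t) * (1 - a ^ 2 - b ^ 2)) by ring, ← hq, ← key]
    exact (((mul_dvd_mul h0 g1).sub (mul_dvd_mul h1 g0)).sub (mul_dvd_mul h2 g3)).add
      (mul_dvd_mul h3 g2)
  have h5 := (mul_dvd_mul_iff_left hm).1 h4
  have : 2 * j * (s - t) =
      j * ((s - t) * (1 - a ^ 2 - b ^ 2)) + (1 + a ^ 2 + b ^ 2) * (j * (s - t)) := by ring
  rw [this]
  exact h5.add (h.mul_right _)

theorem exists_short {m : ℕ} (hm : 0 < m) (a b t : ℤ) : ∃ q : Fin 4 → ℤ, 0 < q ⬝ᵥ q ∧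
    q ⬝ᵥ q ≤ 4 * m ∧ (m : ℤ) ∣ c0 a b t q ∧ (m : ℤ) ∣ c1 a b t q := by
  have : NeZero m := ⟨hm.ne'⟩
  set M := Nat.sqrt m with hM
  let g : (Fin 4 → Fin (M + 1)) → Fin 4 → ℤ := fun u i => ((u i : ℕ) : ℤ)
  obtain ⟨u, v, huv, h⟩ := Fintype.exists_ne_map_eq_of_card_lt
    (fun u : Fin 4 → Fin (M + 1) =>
      (((c0 a b t (g u) : ℤ) : ZMod m), ((c1 a b t (g u) : ℤ) : ZMod m))) (by
      have h1 : m < (M + 1) ^ 2 := Nat.lt_succ_sqrt' m
      simp only [Fintype.card_prod, ZMod.card, Fintype.card_pi, Fintype.card_fin, prod_const,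
        card_univ]
      calc m * m < (M + 1) ^ 2 * (M + 1) ^ 2 := Nat.mul_lt_mul'' h1 h1
        _ = (M + 1) ^ 4 := by ring)
  obtain ⟨e0, e1⟩ := Prod.ext_iff.1 h
  simp only [ZMod.intCast_eq_intCast_iff_dvd_sub] at e0 e1
  refine ⟨g v - g u, dot_self_pos ?_, ?_, ?_, ?_⟩
  · intro h0
    apply huv
    funext i
    have := congrFun h0 i
    simp only [g, Pi.sub_apply, Pi.zero_apply] at this
    exact Fin.ext (by omega)
  · have hb : ∀ i, (g v - g u) i ^ 2 ≤ (m : ℤ) := by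
      intro i
      have h1 := (u i).2
      have h2 := (v i).2
      have h3 : (M : ℤ) ^ 2 ≤ m := by exact_mod_cast Nat.sqrt_le' m
      refine le_trans (sq_le_sq' ?_ ?_) h3 <;> simp only [g, Pi.sub_apply] <;> omega
    rw [dot4]
    linarith [hb 0, hb 1, hb 2, hb 3]
  · convert e0 using 1
    simp only [c0, Pi.sub_apply]; ring
  · convert e1 using 1
    simp only [c1, Pi.sub_apply]; ring

/-- The number of representations of `12 m` as a sum of four squares is at least `m / 4`. -/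
theorem four_lower {m : ℕ} (hm : m % 6 = 1) : m ≤ 4 * (sph (Fin 4) (12 * m)).card := by
  classical
  have hm0 : 0 < m := by omega
  have hm' : (0 : ℤ) < m := by exact_mod_cast hm0
  obtain ⟨a, b, hab⟩ := exists_neg_one (m := m) (by omega)
  choose q hq0 hq1 hq2 hq3 using fun t : ℕ => exists_short hm0 a b t
  have hj : ∀ t, ∃ j : ℕ, j ∈ Icc 1 4 ∧ q t ⬝ᵥ q t = j * m := by
    intro t
    obtain ⟨j, hj⟩ := dvd_norm hab (hq2 t) (hq3 t)
    have h1 := hq0 t
    have h2 := hq1 t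
    rw [hj] at h1 h2
    have h3 : 0 < j := (mul_pos_iff_of_pos_left hm').1 h1
    have h4 : j ≤ 4 := by nlinarith
    refine ⟨j.toNat, mem_Icc.2 (by omega), ?_⟩
    rw [hj, Int.toNat_of_nonneg h3.le, mul_comm]
  have h1 : (range m).card ≤ ((Icc 1 4).biUnion fun j => sph (Fin 4) (j * m)).card := by
    refine card_le_card_of_injOn q ?_ ?_
    · intro t _
      obtain ⟨j, hj1, hj2⟩ := hj t
      rw [mem_coe, mem_biUnion]
      exact ⟨j, hj1, mem_sph.2 (by rw [hj2]; push_cast; ring)⟩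
    · intro t ht s hs hts
      obtain ⟨j, hj1, hj2⟩ := hj t
      have h2 := dvd_diff hm'.ne' hab (hq2 t) (hq3 t) (hts ▸ hq2 s) (hts ▸ hq3 s) hj2
      have h3 : (m : ℤ) ∣ 24 * ((s : ℤ) - t) := by
        refine h2.trans (mul_dvd_mul_right ?_ _)
        rw [mem_Icc] at hj1
        obtain ⟨h4, h5⟩ := hj1
        interval_cases j <;> norm_num
      have h4 : IsCoprime (m : ℤ) 24 := by
        obtain ⟨r, rfl⟩ : ∃ r, m = 6 * r + 1 := ⟨m / 6, by omega⟩
        have h6 : IsCoprime ((6 * r + 1 : ℕ) : ℤ) 6 := ⟨1, -(r : ℤ), by push_cast; ring⟩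
        exact (h6.pow_right (n := 3)).of_isCoprime_of_dvd_right (by norm_num)
      have h5 := h4.dvd_of_dvd_mul_left h3
      rw [mem_coe, mem_range] at ht hs
      have h6 := Int.eq_zero_of_abs_lt_dvd h5 (by rw [abs_lt]; constructor <;> omega)
      omega
  rw [card_range] at h1
  refine h1.trans (card_biUnion_le.trans ?_)
  have h2 : ∀ j ∈ Icc 1 4, (sph (Fin 4) (j * m)).card ≤ (sph (Fin 4) (12 * m)).card := by
    intro j hj1
    rw [mem_Icc] at hj1
    obtain ⟨h4, h5⟩ := hj1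
    have := card_sph_mul (j * m) (12 / j) (by interval_cases j <;> norm_num)
    rwa [show j * m * (12 / j) = 12 * m by interval_cases j <;> norm_num <;> ring] at this
  simpa using sum_le_card_nsmul _ _ _ h2

end Pool.Agent.P.MP_d565f2_an.FR
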