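import Pool.Agent.P.MP_d565f2_an.Analytic

/-! The lower bound for the vanishing order, by counting dimensions. -/

set_option autoImplicit false

open Finset

namespace Pool.Agent.P.MP_d565f2_an.FR

theorem two_le_card {d n : ℕ} (hn : 1 ≤ n) (h : (sph (Fin d) n).card ≠ 0) :
    2 ≤ (sph (Fin d) n).card := by
  obtain ⟨x, hx⟩ := card_pos.1 (Nat.pos_of_ne_zero h)
  have hx' := mem_sph.1 hx
  refine one_lt_card.2 ⟨x, hx, -x, mem_sph.2 (by simpa using hx'), fun h0 => ?_⟩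
  have h1 : x = 0 := funext fun i => by
    have := congrFun h0 i
    simp only [Pi.neg_apply] at this
    show x i = 0
    omega
  rw [h1] at hx'
  simp only [dotProduct_zero] at hx'
  omega

/-- A nonzero weight on the sphere that is orthogonal to all monomials of degree less than `k`. -/
theorem exists_weight {e n k : ℕ} (h : min 2 k * k ^ e < (sph (Fin (e + 1)) n).card) :
    ∃ c : (Fin (e + 1) → ℤ) → ℂ, (∃ x ∈ sph (Fin (e + 1)) n, c x ≠ 0) ∧
      ∀ (a : ℕ) (s : Fin e → ℕ), a + ∑ i, s i < k →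
        ∑ x ∈ sph (Fin (e + 1)) n, c x * ((x 0 : ℂ) ^ a * ∏ i, (x i.succ : ℂ) ^ s i) = 0 := by
  classical
  set S := sph (Fin (e + 1)) n with hS
  let T : (S → ℂ) →ₗ[ℂ] (Fin (min 2 k) × (Fin e → Fin k) → ℂ) :=
    Matrix.toLin' (Matrix.of fun (z : Fin (min 2 k) × (Fin e → Fin k)) (x : S) =>
      (x.1 0 : ℂ) ^ (z.1 : ℕ) * ∏ i, (x.1 i.succ : ℂ) ^ (z.2 i : ℕ))
  obtain ⟨v, hv, hv0⟩ := (Submodule.ne_bot_iff _).1
    (LinearMap.ker_ne_bot_of_finrank_lt (f := T) (by simpa using h))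
  let c : (Fin (e + 1) → ℤ) → ℂ := fun x => if hx : x ∈ S then v ⟨x, hx⟩ else 0
  have hbase : ∀ (a : ℕ) (s : Fin e → ℕ), a < 2 → a + ∑ i, s i < k →
      ∑ x ∈ S, c x * ((x 0 : ℂ) ^ a * ∏ i, (x i.succ : ℂ) ^ s i) = 0 := by
    intro a s ha hs
    have h1 : ∀ i, s i < k := fun i =>
      lt_of_le_of_lt ((single_le_sum (fun _ _ => Nat.zero_le _) (mem_univ i)).trans
        (Nat.le_add_left _ _)) hs
    have h2 := congrFun (LinearMap.mem_ker.1 hv) (⟨a, by omega⟩, fun i => ⟨s i, h1 i⟩)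
    simp only [T, Matrix.toLin'_apply, Matrix.mulVec, dotProduct, Matrix.of_apply,
      Pi.zero_apply] at h2
    rw [← h2, ← sum_coe_sort S]
    refine sum_congr rfl fun x _ => ?_
    simp only [c, x.2, dif_pos]
    ring
  refine ⟨c, ?_, fun a => ?_⟩
  · obtain ⟨x, hx⟩ := Function.ne_iff.1 hv0
    exact ⟨x.1, x.2, by simpa [c, x.2] using hx⟩
  · induction a using Nat.strong_induction_on with
    | _ a ih =>
      intro s hs
      rcases lt_or_ge a 2 with ha | ha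
      · exact hbase a s ha hs
      obtain ⟨b, rfl⟩ : ∃ b, a = b + 2 := ⟨a - 2, by omega⟩
      have h1 : ∀ x ∈ S, c x * ((x 0 : ℂ) ^ (b + 2) * ∏ i, (x i.succ : ℂ) ^ s i) =
          n * (c x * ((x 0 : ℂ) ^ b * ∏ i, (x i.succ : ℂ) ^ s i)) -
            ∑ j, c x * ((x 0 : ℂ) ^ b *
              ∏ i, (x i.succ : ℂ) ^ (s + Pi.single j 2 : Fin e → ℕ) i) := by
        intro x hx
        have h2 := mem_sph.1 hx
        rw [dotProduct, Fin.sum_univ_succ] at h2
        have h3 : (x 0 : ℂ) * x 0 + ∑ j : Fin e, (x j.succ : ℂ) * x j.succ = n := by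
          exact_mod_cast h2
        have h4 : ∀ j : Fin e, ∏ i, (x i.succ : ℂ) ^ (s + Pi.single j 2 : Fin e → ℕ) i =
            (∏ i, (x i.succ : ℂ) ^ s i) * ((x j.succ : ℂ) * x j.succ) := by
          intro j
          simp only [Pi.add_apply, pow_add, prod_mul_distrib]
          congr 1
          rw [prod_eq_single j (fun i _ hi => by simp [hi]) (by simp)]
          simp [sq]
        simp only [h4, ← mul_sum]
        rw [← h3]
        ring
      rw [sum_congr rfl h1, sum_sub_distrib, ← mul_sum, ih b (by omega) s (by omega), sum_comm,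
        sum_eq_zero, mul_zero, sub_zero]
      intro j _
      refine ih b (by omega) _ ?_
      simp only [Pi.add_apply, sum_add_distrib, sum_pi_single', mem_univ, if_true]
      omega

theorem exists_vanishing {e n k : ℕ} (h : min 2 k * k ^ e < (sph (Fin (e + 1)) n).card) :
    ∃ c : (Fin (e + 1) → ℤ) → ℂ,
      (fun x : Fin (e + 1) → ℝ => ∑ ξ ∈ sph (Fin (e + 1)) n, c ξ * ex (lin ξ x)) ≠ 0 ∧
      ∀ j : ℕ, j < k → iteratedFDeriv ℝ j
        (fun x : Fin (e + 1) → ℝ => ∑ ξ ∈ sph (Fin (e + 1)) n, c ξ * ex (lin ξ x)) 0 = 0 := by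
  classical
  obtain ⟨c, ⟨x, hx, hcx⟩, hc⟩ := exists_weight h
  refine ⟨c, fun h0 => ?_, fun j hj => vanishing_of_orth _ c j fun v => ?_⟩
  · refine not_rel_card ⟨x, mem_filter.2 ⟨hx, hcx⟩⟩
      (rel_of_vanishing (sph (Fin (e + 1)) n) c 0 _ fun j _ => ?_)
    rw [h0]
    simp
  · let s : Fin (e + 1) → ℕ := fun i => (univ.filter fun l => v l = i).card
    have h1 : ∑ i, s i = j := by
      have := card_eq_sum_card_fiberwise (s := univ) (t := univ) (f := v) (fun _ _ => mem_univ _)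
      simpa [s] using this.symm
    rw [Fin.sum_univ_succ] at h1
    rw [← hc (s 0) (fun i => s i.succ) (by omega)]
    refine sum_congr rfl fun y _ => ?_
    rw [← Fin.prod_univ_succ (fun i => (y i : ℂ) ^ s i),
      ← prod_fiberwise' univ v (fun i => (y i : ℂ))]
    simp [s]

theorem lower (d : ℕ) (hd : 2 ≤ d) (n : ℕ) (hn : 1 ≤ n) (hN : (sph (Fin d) n).card ≠ 0) :
    ∃ k : ℕ, (∃ c : (Fin d → ℤ) → ℂ,
      (fun x : Fin d → ℝ => ∑ ξ ∈ sph (Fin d) n, c ξ * ex (lin ξ x)) ≠ 0 ∧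
      ∀ j : ℕ, j < k → iteratedFDeriv ℝ j
        (fun x : Fin d → ℝ => ∑ ξ ∈ sph (Fin d) n, c ξ * ex (lin ξ x)) 0 = 0) ∧
      ((sph (Fin d) n).card : ℝ) ^ ((1 : ℝ) / ((d : ℝ) - 1)) ≤ 4 * k := by
  classical
  obtain ⟨e, rfl⟩ : ∃ e, d = e + 1 := ⟨d - 1, by omega⟩
  have he : e ≠ 0 := by omega
  set N := (sph (Fin (e + 1)) n).card with hNdef
  have hex : ∃ k, N ≤ min 2 (k + 1) * (k + 1) ^ e :=
    ⟨N, ((Nat.le_succ N).trans (Nat.le_self_pow he _)).trans
      (Nat.le_mul_of_pos_left _ (by omega))⟩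
  have h1 := Nat.find_spec hex
  have h2 : Nat.find hex ≠ 0 := by
    intro h0
    have := two_le_card hn hN
    rw [h0] at h1
    simp at h1
    omega
  set k := Nat.find hex with hk
  have h3 := Nat.find_min hex (m := k - 1) (by omega)
  rw [show k - 1 + 1 = k by omega, not_le] at h3
  refine ⟨k, exists_vanishing h3, ?_⟩
  have h4 : N ≤ (4 * k) ^ e := by
    calc N ≤ min 2 (k + 1) * (k + 1) ^ e := h1
      _ ≤ 2 ^ e * (2 * k) ^ e :=
        Nat.mul_le_mul ((min_le_left _ _).trans (Nat.le_self_pow he 2))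
          (Nat.pow_le_pow_left (by omega) _)
      _ = (4 * k) ^ e := by rw [← mul_pow]; congr 1; ring
  have h5 : (N : ℝ) ≤ (4 * (k : ℝ)) ^ e := by exact_mod_cast h4
  push_cast
  rw [add_sub_cancel_right, one_div]
  calc (N : ℝ) ^ (e : ℝ)⁻¹ ≤ ((4 * (k : ℝ)) ^ e) ^ (e : ℝ)⁻¹ := by gcongr
    _ = 4 * k := Real.pow_rpow_inv_natCast (by positivity) he

end Pool.Agent.P.MP_d565f2_an.FR
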