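import Pool.Agent.P.MP_d565f2_an.Main

set_option autoImplicit false

namespace Pool.Agent.P.MP_d565f2_an.FR.OldLambda

/-- In every dimension `d ≥ 9` the vanishing order of a nonzero eigenfunction with eigenvalue
`4 π ^ 2 n` is at most `C n ^ ((d - 2) / (2 (d - 1)))`. -/
theorem lambda_form :
    ∀ d : ℕ, 9 ≤ d → ∃ C : ℝ, 0 < C ∧ ∀ n : ℕ, 1 ≤ n → ∀ k : ℕ,
      (∃ c : (Fin d → ℤ) → ℂ, ∃ p : Fin d → ℝ,
        (fun x : Fin d → ℝ =>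
            ∑ᶠ ξ ∈ {ξ : Fin d → ℤ | ∑ i, ξ i ^ 2 = (n : ℤ)},
              c ξ * Complex.exp (2 * (Real.pi : ℂ) * Complex.I *
                ∑ i, ((ξ i : ℝ) : ℂ) * ((x i : ℝ) : ℂ))) ≠ 0 ∧
        ∀ j : ℕ, j < k →
          iteratedFDeriv ℝ j
            (fun x : Fin d → ℝ =>
              ∑ᶠ ξ ∈ {ξ : Fin d → ℤ | ∑ i, ξ i ^ 2 = (n : ℤ)},
                c ξ * Complex.exp (2 * (Real.pi : ℂ) * Complex.I *
                  ∑ i, ((ξ i : ℝ) : ℂ) * ((x i : ℝ) : ℂ))) p = 0) →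
      (k : ℝ) ≤ C * (n : ℝ) ^ (((d : ℝ) - 2) / (2 * ((d : ℝ) - 1))) := by
  intro d hd
  obtain ⟨C, hC, h⟩ := Pool.Agent.P.MP_d565f2_an.sharp_bound d hd
  refine ⟨C, hC, fun n hn k ⟨c, p, hne, hvan⟩ => ?_⟩
  obtain ⟨K, hK, hKC⟩ := h n hn
  rw [Pool.Agent.P.MP_d565f2_an.fun_eq] at hne hvan
  have hk := Pool.Agent.P.MP_d565f2_an.order_le hK k c p hne hvan
  exact le_trans (by exact_mod_cast hk) hKC

end Pool.Agent.P.MP_d565f2_an.FR.OldLambda
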