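import Pool.Agent.P.MP_d565f2_an.Main
import Pool.Agent.P.MP_d565f2_an.FR.Count
import Pool.Agent.P.MP_d565f2_an.FR.Lower

/-! The upper bound in terms of the number of lattice points. -/

set_option autoImplicit false

open Finset

namespace Pool.Agent.P.MP_d565f2_an.FR

theorem upper (d : ℕ) (hd : d = 2 ∨ 9 ≤ d) : ∃ C : ℝ, 0 < C ∧ ∀ n : ℕ, 1 ≤ n →
    (sph (Fin d) n).card ≠ 0 → ∃ K : ℕ, (∀ Z ⊆ sph (Fin d) n, Z.Nonempty → ¬ Rel Z K) ∧
      (K : ℝ) ≤ C * ((sph (Fin d) n).card : ℝ) ^ ((1 : ℝ) / ((d : ℝ) - 1)) := by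
  rcases hd with rfl | hd
  · refine ⟨1, one_pos, fun n _ _ => ⟨(sph (Fin 2) n).card, fun Z hZ hne h => ?_, ?_⟩⟩
    · exact not_rel_card hne (h.mono ((Nat.sub_le _ _).trans (card_le_card hZ)))
    · norm_num
  · obtain ⟨C, hC, h⟩ := sharp_bound d hd
    obtain ⟨D, hD⟩ := count_lower d (by omega)
    have hd' : (9 : ℝ) ≤ d := by exact_mod_cast hd
    have h0 : (0 : ℝ) < (d : ℝ) - 1 := by linarith
    refine ⟨C * ((D : ℝ) + 1) ^ ((1 : ℝ) / (2 * ((d : ℝ) - 1))), by positivity, fun n hn hN => ?_⟩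
    obtain ⟨K, hK, hKC⟩ := h n hn
    refine ⟨K, hK, hKC.trans ?_⟩
    rw [mul_assoc]
    refine mul_le_mul_of_nonneg_left ?_ hC.le
    set N := (sph (Fin d) n).card with hNdef
    have h1 : (n : ℝ) ^ (d - 2) ≤ ((D : ℝ) + 1) * (N : ℝ) ^ 2 := by
      have : (n : ℝ) ^ (d - 2) ≤ (D : ℝ) * (N : ℝ) ^ 2 := by exact_mod_cast hD n hN
      nlinarith [sq_nonneg (N : ℝ)]
    calc (n : ℝ) ^ (((d : ℝ) - 2) / (2 * ((d : ℝ) - 1)))
        = ((n : ℝ) ^ (d - 2)) ^ ((1 : ℝ) / (2 * ((d : ℝ) - 1))) := by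
          rw [← Real.rpow_natCast, ← Real.rpow_mul (by positivity), Nat.cast_sub (by omega)]
          congr 1
          push_cast
          ring
      _ ≤ (((D : ℝ) + 1) * (N : ℝ) ^ 2) ^ ((1 : ℝ) / (2 * ((d : ℝ) - 1))) := by gcongr
      _ = _ := by
          rw [Real.mul_rpow (by positivity) (by positivity), ← Real.rpow_natCast (N : ℝ) 2,
            ← Real.rpow_mul (by positivity)]
          congr 2
          push_cast
          field_simp

end Pool.Agent.P.MP_d565f2_an.FR
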